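import Pool.Agent.Helper92.SC.Enc
import Pool.Agent.Helper92.SC.Homog

/-!
Let `λ` be a singular cardinal of uncountable cofinality `μ` such that `τ^μ ≤ λ` for every cardinal
`τ < λ` of cofinality `μ` (under the singular cardinals hypothesis this just says `2^μ < λ`). Then
`λ⁺` does not have the boldface `Σ₁`-colouring property.
-/

open Set Ordinal Cardinal

universe u

namespace Pool.Agent.Results.MP_bf1b61_lc.CofinalitySigmaOne

open Pool.Agent.Helper98 hiding sInv pA pB1 pC mat_iff exists_sigma_one_formula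
open Pool.Agent.Helper92.SC

theorem exists_decoder {lam : Cardinal.{u}} {A : Type u} [Nonempty A] (h : #A ≤ lam) :
    ∃ d : TT lam → A, Function.Surjective d := by
  rw [← mk_ord_toType lam] at h
  obtain ⟨e⟩ := h
  exact ⟨Function.invFun e, Function.invFun_surjective e.injective⟩

theorem empty_ne_one : (∅ : ZFSet.{u}) ≠ {∅} := by
  intro h
  have h1 : (∅ : ZFSet.{u}) ∈ ({∅} : ZFSet.{u}) := ZFSet.mem_singleton.2 rfl
  rw [← h] at h1
  exact ZFSet.notMem_empty _ h1

theorem lex_iff {T : Type u} [LinearOrder T] [WellFoundedLT T] (sa sb : T → Prop)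
    (h : ∃ k, ¬ (sa k ↔ sb k)) (y c : ZFSet.{u})
    (hc1 : (∃ k, (∀ k' < k, (sa k' ↔ sb k')) ∧ ¬ sa k ∧ sb k) → c = {∅})
    (hc0 : ¬ (∃ k, (∀ k' < k, (sa k' ↔ sb k')) ∧ ¬ sa k ∧ sb k) → c = ∅) :
    (∃ k, (∀ k' < k, (sa k' ↔ sb k')) ∧
      ((sa k ∧ ¬ sb k ∧ y = ∅) ∨ (¬ sa k ∧ sb k ∧ y = {∅}))) ↔ y = c := by
  obtain ⟨k0, hk0, hmin⟩ := (wellFounded_lt (α := T)).has_min {k | ¬ (sa k ↔ sb k)} h
  have hbelow : ∀ k' < k0, (sa k' ↔ sb k') := by
    intro k' hk'
    by_contra h1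
    exact hmin k' h1 hk'
  have huniq : ∀ k, (∀ k' < k, (sa k' ↔ sb k')) → ¬ (sa k ↔ sb k) → k = k0 := by
    intro k h1 h2
    rcases lt_trichotomy k k0 with h3 | h3 | h3
    · exact (h2 (hbelow k h3)).elim
    · exact h3
    · exact (hk0 (h1 k0 h3)).elim
  by_cases h1 : sa k0
  · have h2 : ¬ sb k0 := fun h2 => hk0 ⟨fun _ => h2, fun _ => h1⟩
    have h3 : c = ∅ := by
      apply hc0
      rintro ⟨k, h4, h5, h6⟩
      have h7 := huniq k h4 (fun h8 => h5 (h8.2 h6))
      rw [h7] at h5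
      exact h5 h1
    rw [h3]
    constructor
    · rintro ⟨k, h4, h5⟩
      rcases h5 with ⟨_, _, h6⟩ | ⟨h5, h6, _⟩
      · exact h6
      · have h7 := huniq k h4 (fun h8 => h5 (h8.2 h6))
        rw [h7] at h5
        exact (h5 h1).elim
    · intro h4
      exact ⟨k0, hbelow, Or.inl ⟨h1, h2, h4⟩⟩
  · have h2 : sb k0 := by
      by_contra h2
      exact hk0 ⟨fun h3 => (h1 h3).elim, fun h3 => (h2 h3).elim⟩
    have h3 : c = {∅} := hc1 ⟨k0, hbelow, h1, h2⟩
    rw [h3]
    constructor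
    · rintro ⟨k, h4, h5⟩
      rcases h5 with ⟨h5, h6, _⟩ | ⟨_, _, h6⟩
      · have h7 := huniq k h4 (fun h8 => h6 (h8.1 h5))
        rw [h7] at h5
        exact (h1 h5).elim
      · exact h6
    · intro h4
      exact ⟨k0, hbelow, Or.inr ⟨h1, h2, h4⟩⟩

/-- If `lam` is singular with `cf(lam) > ω` and `τ ^ cf(lam) ≤ lam` for all cardinals `τ < lam`
with `cf(τ) = cf(lam)`, then the successor of `lam` fails the boldface `Σ₁`-colouring property. -/
theorem result : ∀ lam : Cardinal.{u}, lam.IsSingular → ℵ₀ < lam.ord.cof →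
    (∀ τ < lam, τ.ord.cof = lam.ord.cof → τ ^ lam.ord.cof ≤ lam) →
    ¬ HasBoldfaceColouringProperty 1 (Order.succ lam) := by
  classical
  intro lam hs hcof hyp hB
  have hlam : ℵ₀ ≤ lam := hs.aleph0_le
  have hinf := Idx_infinite hcof
  obtain ⟨i0⟩ : Nonempty (Idx lam) := inferInstance
  obtain ⟨D, hDθ, hDκ, hDC⟩ := exists_catchData hs hcof hyp
  obtain ⟨φ0, _⟩ := D.code_empty
  have hka : ∀ i : Idx lam, Nonempty (ka lam i).ToType := by
    intro i
    rw [nonempty_toType_iff]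
    exact (isRegular_ka i).ord_pos.ne'
  have n1 : Nonempty (LE lam) := ⟨⟨i0, (hka i0).some⟩⟩
  have n2 : Nonempty D.Code := ⟨φ0⟩
  have c1 : #(Set (Idx lam)) ≤ lam := mk_Set_le hs hcof hyp
  obtain ⟨dE, hE⟩ := exists_decoder (mk_LE_le hcof hs)
  obtain ⟨dC, hC⟩ := exists_decoder hDC
  obtain ⟨dS, hS⟩ := exists_decoder (mk_seq_le hs hcof hyp)
  obtain ⟨dI, hI⟩ : ∃ d : TT lam → Idx lam, Function.Surjective d := by
    apply exists_decoder
    rw [mk_Idx]
    exact Ordinal.cof_ord_le lam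
  obtain ⟨dK, hK⟩ : ∃ d : TT lam → Set (Idx lam) × D.Code × Bool, Function.Surjective d := by
    apply exists_decoder
    rw [mk_prod, Cardinal.lift_id, Cardinal.lift_id, mk_prod, Cardinal.lift_id']
    refine (mul_le_mul' c1 ((mul_le_mul' hDC ?_).trans (mul_eq_self hlam).le)).trans
      (mul_eq_self hlam).le
    rw [mk_bool, Cardinal.lift_ofNat]
    exact (natCast_lt_aleph0 (n := 2)).le.trans hlam
  obtain ⟨X, hX⟩ := exists_X lam
  obtain ⟨φ, hφ1, hφ2⟩ := Pool.Agent.Helper92.SC.exists_sigma_one_formula.{u}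
  obtain ⟨J, hJ⟩ : ∃ J, J = JNS hcof := ⟨_, rfl⟩
  -- nonempty invariants are the ordinals with hereditarily exact functions
  have hne : ∀ a, (∃ (T : Set (Idx lam)) (f : Idx lam → Ordinal.{u}), HE D J a T f) →
      ∃ k, sInv J D X dK a k := by
    rintro a ⟨T, f, hf⟩
    obtain ⟨b, T', h1, h2, h3⟩ := split_pos hf.1 (fun i => X i (f i) (D.val φ0 i))
    obtain ⟨k, hk⟩ := hK ⟨T', φ0, b⟩
    refine ⟨k, ?_⟩
    rw [sInv, hk]
    exact ⟨T', f, Subset.rfl, hf.mono h1 h2, h3⟩
  have hne' : ∀ a k, sInv J D X dK a k →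
      ∃ (T : Set (Idx lam)) (f : Idx lam → Ordinal.{u}), HE D J a T f := by
    rintro a k ⟨T, f, _, hf, _⟩
    exact ⟨T, f, hf⟩
  -- the separation property
  have hsep : ∀ a b, (∃ k, sInv J D X dK a k) → a ≠ b →
      ∃ k, ¬ (sInv J D X dK a k ↔ sInv J D X dK b k) := by
    intro a b ha hab
    by_contra hcon
    push Not at hcon
    obtain ⟨k, hk⟩ := ha
    refine CatchData.inv_separates (D := D) (J := J) (X := X) (by rw [hDκ, hDθ]; exact hX)
      (hne' a k hk) hab ?_
    intro K φ b'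
    obtain ⟨k', hk'⟩ := hK ⟨K, φ, b'⟩
    have h3 := hcon k'
    rw [sInv, sInv, hk'] at h3
    exact h3
  -- the enumeration
  have hex : ∀ α, ∃ a, α < (Order.succ lam).ord → IsE J D X dK α a ∧ a < (Order.succ lam).ord := by
    intro α
    by_cases hα : α < (Order.succ lam).ord
    · obtain ⟨ζ, h1, h2, h3⟩ := exists_HE' hs hcof hyp hDκ hDC hα
      rw [← hJ] at h3
      obtain ⟨a, ⟨ha1, ha2⟩, ha3⟩ := (wellFounded_lt (α := Ordinal.{u})).has_min
        {a | α ≤ a ∧ ∃ k, sInv J D X dK a k} ⟨ζ, h1, hne ζ h3⟩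
      refine ⟨a, fun _ => ⟨⟨ha1, ha2, fun γ hγ h4 h5 => ha3 γ ⟨h4, h5⟩ hγ⟩, ?_⟩⟩
      refine lt_of_le_of_lt (not_lt.1 ?_) h2
      exact ha3 ζ ⟨h1, hne ζ h3⟩
    · exact ⟨0, fun h => (hα h).elim⟩
  choose e he using hex
  -- the colouring
  obtain ⟨s, hs'⟩ : ∃ s : Ordinal.{u} → TT lam → Prop, s = fun a k => sInv J D X dK (e a) k :=
    ⟨_, rfl⟩
  obtain ⟨c, hc1, hc0⟩ : ∃ c : Ordinal.{u} → Ordinal.{u} → ZFSet.{u},
      (∀ a b, (∃ k, (∀ k' < k, (s a k' ↔ s b k')) ∧ ¬ s a k ∧ s b k) → c a b = {∅}) ∧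
      (∀ a b, ¬ (∃ k, (∀ k' < k, (s a k' ↔ s b k')) ∧ ¬ s a k ∧ s b k) → c a b = ∅) := by
    refine ⟨fun a b => if (∃ k, (∀ k' < k, (s a k' ↔ s b k')) ∧ ¬ s a k ∧ s b k)
      then {∅} else ∅, ?_, ?_⟩
    · intro a b h
      exact if_pos h
    · intro a b h
      exact if_neg h
  have hpart : IsSigmaPartition 1 (Order.succ lam)
      ![lam.ord.toZFSet, pA D dE dC, pDm D dC dS dI, pCv J D dC dS, pU J dS,
        pC D X dE dC dK, pB1 J D dC dK, pG1 dE, pG2 dE] c := by
    refine ⟨φ, hφ1, ?_⟩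
    intro a b hab hb y
    rw [hφ2]
    have h1 := he a (hab.trans hb)
    have h2 := he b hb
    refine (mat_iff hcof hDκ hE hC hS hI hab.le h1.1 h2.1 h2.2 y).trans ?_
    by_cases heq : e a = e b
    · have h3 : c a b = ∅ := by
        apply hc0
        rintro ⟨k, _, h4, h5⟩
        rw [hs'] at h4 h5
        dsimp only at h4 h5
        rw [heq] at h4
        exact h4 h5
      rw [h3]
      constructor
      · rintro (⟨k, _, ⟨h4, h5, _⟩ | ⟨h4, h5, _⟩⟩ | ⟨_, h4⟩)
        · rw [heq] at h4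
          exact (h5 h4).elim
        · rw [heq] at h4
          exact (h4 h5).elim
        · exact h4
      · intro h4
        exact Or.inr ⟨heq, h4⟩
    · have h3 := lex_iff (s a) (s b) (by rw [hs']; exact hsep _ _ h1.1.2.1 heq) y (c a b)
        (hc1 a b) (hc0 a b)
      rw [hs'] at h3
      rw [← h3]
      constructor
      · rintro (h4 | ⟨h4, _⟩)
        · exact h4
        · exact (heq h4).elim
      · exact Or.inl
  obtain ⟨H, hH1, hH2, i, hH3⟩ := hB _ _ (by
    have hL : InH (Order.succ lam) lam.ord.toZFSet := by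
      apply InH.ord
      rw [card_ord]
      exact Order.lt_succ _
    intro i
    fin_cases i
    · exact hL
    · change InH (Order.succ lam) (pA D dE dC)
      exact InH.rel3 hlam _
    · change InH (Order.succ lam) (pDm D dC dS dI)
      exact InH.rel3 hlam _
    · change InH (Order.succ lam) (pCv J D dC dS)
      exact InH.rel2 hlam _
    · change InH (Order.succ lam) (pU J dS)
      exact Pool.Agent.Helper92.SC.InH.rel1 hlam _
    · change InH (Order.succ lam) (pC D X dE dC dK)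
      exact InH.rel3 hlam _
    · change InH (Order.succ lam) (pB1 J D dC dK)
      exact InH.rel2 hlam _
    · change InH (Order.succ lam) (pG1 dE)
      exact InH.rel2 hlam _
    · change InH (Order.succ lam) (pG2 dE)
      exact InH.rel2 hlam _) c hpart (by
    intro a b _ _
    by_cases h : ∃ k, (∀ k' < k, (s a k' ↔ s b k')) ∧ ¬ s a k ∧ s b k
    · exact Or.inr (hc1 a b h)
    · exact Or.inl (hc0 a b h))
  have hunb : ∀ b, b < (Order.succ lam).ord → ∃ a ∈ H, b < a ∧ a < (Order.succ lam).ord := by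
    intro b hb
    by_contra hcon
    push Not at hcon
    have h3 : H ⊆ Set.Iic b := by
      intro a ha
      by_contra h4
      exact (hcon a ha (not_le.1 h4)).not_gt (hH1 ha)
    have h4 := Cardinal.mk_le_mk_of_subset h3
    rw [hH2] at h4
    have h5 : (Set.Iic b) = Set.Iio (b + 1) := by
      ext x
      simp [Order.lt_add_one_iff]
    rw [h5, Cardinal.mk_Iio_ordinal, Cardinal.lift_le] at h4
    have h6 : (b + 1).card < Order.succ lam := by
      rw [← lt_ord]
      exact (isSuccLimit_ord (isRegular_succ hlam).aleph0_le).add_one_lt hb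
    exact h4.not_gt h6
  refine Pool.Agent.Helper92.SC.no_homogeneous hlam (T := TT lam) (mk_ord_toType lam).le s H
    hunb ?_ ?_
  · intro a ha
    have h1 := he a ha
    refine ⟨e a, h1.2, ?_⟩
    intro b hab hb
    have h2 := he b hb
    rw [hs']
    exact hsep _ _ h1.1.2.1 (hab.trans_le h2.1.1).ne
  · by_cases hi : i = {∅}
    · left
      intro a ha b hb hab _
      by_contra hcon
      have h3 := hH3 a ha b hb hab
      rw [hc0 a b hcon, hi] at h3
      exact empty_ne_one h3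
    · right
      intro a ha b hb hab _ hcon
      have h3 := hH3 a ha b hb hab
      rw [hc1 a b hcon] at h3
      exact hi h3.symm

end Pool.Agent.Results.MP_bf1b61_lc.CofinalitySigmaOne
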