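import Pool.Agent.Helper92.CS.Final

/-!
In ZFC, the successor of every singular cardinal of uncountable cofinality fails the boldface
`Σ₂`-colouring property. No cardinal arithmetic is assumed.
-/

open Set Ordinal Cardinal

universe u

namespace Pool.Agent.Results.MP_bf1b61_lc.SigmaTwoFails

open Pool.Agent.Helper98 hiding sInv pA pB1 pC mat_iff exists_sigma_one_formula
open Pool.Agent.Helper92.CS

theorem hb_of_all {lam : Cardinal.{u}} (hs : Sg lam) {dE : TT lam → LB lam} {w : ZFSet.{u}}
    (H : ∀ x, AllF (par dE) w x) : HB lam w := by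
  intro ν hν C hC
  have hreg : ν.IsRegular := by
    rcases hν with rfl | hν
    · exact hs.cof_reg
    · exact hν.1
  have h1 := clubF_encS hreg hC
  refine ⟨encS C, ?_, h1, ?_⟩
  · rcases hν with rfl | hν
    · exact (H _).1 h1
    · exact (H _).2 _ (mem_par_R.2 ⟨ν, hν, rfl⟩) h1
  · rw [dec_encS]

/-- If `lam` is a singular cardinal of uncountable cofinality, then the successor of `lam` fails
the boldface `Σ₂`-colouring property. -/
theorem result : ∀ lam : Cardinal.{u}, lam.IsSingular → ℵ₀ < lam.ord.cof →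
    ¬ HasBoldfaceColouringProperty 2 (Order.succ lam) := by
  intro lam hsing hcof
  have hs : Sg lam := ⟨hsing, hcof⟩
  obtain ⟨dE, hE⟩ := exists_dE hs
  obtain ⟨g, hg⟩ := exists_scale' hs
  obtain ⟨φ, hφ1, hφ2⟩ := exists_sigma_two.{u}
  obtain ⟨i1, i2, i3, i4, i5, i6, i7, i8, i9, i10⟩ := InH_par (dE := dE) hs
  refine hg.failure hs hE ![(par dE).L, (par dE).m, (par dE).R, (par dE).SI, (par dE).Lv,
    (par dE).LI, (par dE).IO, (par dE).EK, (par dE).RF, (par dE).NL] ?_ ⟨φ, hφ1, ?_⟩
  · intro i
    fin_cases i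
    · exact i1
    · exact i2
    · exact i3
    · exact i4
    · exact i5
    · exact i6
    · exact i7
    · exact i8
    · exact i9
    · exact i10
  · intro a b hab hb y
    refine (hφ2 _).trans ?_
    change (∃ w, ∀ x, AllF (par dE) w x ∧ MatF (par dE) w w a.toZFSet b.toZFSet y) ↔ _
    constructor
    · rintro ⟨w, hw⟩
      exact hg.mat_imp hs hE (hb_of_all hs fun x => (hw x).1) hab.le hb (hw ∅).2
    · intro h
      obtain ⟨ζ, G, H, Y, hm⟩ := hg.mat_of hs hE hb
      refine ⟨insert ζ (insert G (insert H (insert Y (ZFSet.powerset lam.ord.toZFSet)))), ?_⟩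
      have hall : ∀ x, AllF (par dE)
          (insert ζ (insert G (insert H (insert Y (ZFSet.powerset lam.ord.toZFSet))))) x := by
        intro x
        have h1 : ∀ ν : Cardinal.{u}, ν ≤ lam → ClubF x ν.ord.toZFSet →
            x ∈ insert ζ (insert G (insert H (insert Y (ZFSet.powerset lam.ord.toZFSet)))) := by
          intro ν hν hx
          simp only [ZFSet.mem_insert_iff]
          refine Or.inr (Or.inr (Or.inr (Or.inr ?_)))
          rw [ZFSet.mem_powerset]
          intro t ht
          obtain ⟨o, ho, rfl⟩ := Ordinal.mem_toZFSet_iff.1 (hx.1 t ht)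
          exact Ordinal.toZFSet_mem_toZFSet_iff.2 (ho.trans_le (Cardinal.ord_le_ord.2 hν))
        refine ⟨h1 _ (Ordinal.cof_ord_le lam), ?_⟩
        intro ν hν hx
        obtain ⟨ν, hν', rfl⟩ := mem_par_R.1 hν
        exact h1 _ hν'.2.2.le hx
      intro x
      refine ⟨hall x, hm _ _ (hb_of_all hs hall) ?_ ?_ ?_ ?_ a hab.le y h⟩
      · simp
      · simp
      · simp
      · simp

end Pool.Agent.Results.MP_bf1b61_lc.SigmaTwoFails
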