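import Pool.Agent.Helper92.CS.Corr2

/-!
If the stationary subsets of the regular cardinals between the cofinality of a singular cardinal of
uncountable cofinality and the cardinal itself are `Σ₁`-definable from its successor and a
parameter of hereditary cardinality at most the singular, then the successor fails the boldface
`Σ₁`-colouring property. The hypothesis holds in particular when each of these nonstationary ideals
has a base of clubs of size at most the singular cardinal.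
-/

open Set Ordinal Cardinal

universe u

namespace Pool.Agent.Results.MP_bf1b61_lc.StationarityDefinable

open Pool.Agent.Helper98 hiding sInv pA pB1 pC mat_iff exists_sigma_one_formula
open Pool.Agent.Helper92.CS

/-- The formula `ψ(x, ν, lam⁺, z)` holds exactly when `x` is stationary in `ν`, for all subsets `x`
of regular cardinals `ν` with `cf(lam) ≤ ν < lam`. -/
def DefinesStationarity (lam : Cardinal.{u}) (ψ : Fml 4) (z : ZFSet.{u}) : Prop :=
  ∀ ν : Cardinal.{u}, ν.IsRegular → lam.ord.cof ≤ ν → ν < lam →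
    ∀ x : ZFSet.{u}, x ⊆ ν.ord.toZFSet →
      (ψ.Sat ![x, ν.ord.toZFSet, (Order.succ lam).ord.toZFSet, z] ↔
        IsStationary {t : ν.ord.ToType | (t.toOrd.1).toZFSet ∈ x})

theorem cert_of {lam : Cardinal.{u}} (hs : Sg lam) {ψ : Fml 5} {z : ZFSet.{u}}
    (h : DefinesStationarity lam (.ex (.neg ψ)) z) :
    Cert lam ψ (Order.succ lam).ord.toZFSet z := by
  intro ν hν x hx
  have h1 : ν.IsRegular ∧ lam.ord.cof ≤ ν ∧ ν < lam := by
    rcases hν with rfl | hν
    · exact ⟨hs.cof_reg, le_rfl, cof_lt hs.sing⟩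
    · exact ⟨hν.1, hν.2.1.le, hν.2.2⟩
  exact h ν h1.1 h1.2.1 h1.2.2 x hx

/-- Let `lam` be a singular cardinal of uncountable cofinality. If some `Σ₁` formula defines, with
parameters `lam⁺` and `z ∈ H(lam⁺)`, the stationary subsets of the regular cardinals in
`[cf(lam), lam)`, then `lam⁺` fails the boldface `Σ₁`-colouring property. -/
theorem result : ∀ lam : Cardinal.{u}, lam.IsSingular → ℵ₀ < lam.ord.cof →
    (∃ (ψ : Fml 4) (z : ZFSet.{u}), ψ.IsSigma 1 ∧ InH (Order.succ lam) z ∧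
      DefinesStationarity lam ψ z) →
    ¬ HasBoldfaceColouringProperty 1 (Order.succ lam) := by
  rintro lam hsing hcof ⟨ψ, z, ⟨ψ', hψ', rfl⟩, hz, hdef⟩
  have hs : Sg lam := ⟨hsing, hcof⟩
  have hcert := cert_of hs hdef
  obtain ⟨dE, hE⟩ := exists_dE hs
  obtain ⟨g, hg⟩ := exists_scale' hs
  obtain ⟨φ, hφ1, hφ2⟩ := exists_sigma_three.{u} (ψ := ψ') hψ'
  obtain ⟨i1, i2, i3, i4, i5, i6, i7, i8, i9, i10⟩ := InH_par (dE := dE) hs
  refine hg.failure hs hE ![(par dE).L, (par dE).m, (par dE).R, (par dE).SI, (par dE).Lv,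
    (par dE).LI, (par dE).IO, (par dE).EK, (par dE).RF, (par dE).NL, z] ?_ ⟨φ, hφ1, ?_⟩
  · intro i
    fin_cases i
    · exact i1
    · exact i2
    · exact i3
    · exact i4
    · exact i5
    · exact i6
    · exact i7
    · exact i8
    · exact i9
    · exact i10
    · exact hz
  · intro a b hab hb y
    refine (hφ2 _).trans ?_
    change (∃ w, MatG ψ' (Order.succ lam).ord.toZFSet z (par dE) w a.toZFSet b.toZFSet y) ↔ _
    constructor
    · rintro ⟨w, hw⟩
      exact hg.matG_imp hs hE hcert hab.le hb hw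
    · intro h
      obtain ⟨w, hw⟩ := hg.matG_of hs hE hcert hb
      exact ⟨w, hw a hab.le y h⟩

/-! ### the special case of bases of clubs -/

/-- the nonstationary ideal on `ν` has a base of clubs of size at most `lam` -/
def ClubBase (lam ν : Cardinal.{u}) : Prop :=
  ∃ F : Set (Set ν.ord.ToType), #F ≤ lam ∧ (∀ C ∈ F, IsClub C) ∧
    ∀ C : Set ν.ord.ToType, IsClub C → ∃ D ∈ F, D ⊆ C

/-- `x` meets all sets indexed by `ν` in `z` -/
def Meets (x ν z : ZFSet.{u}) : Prop :=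
  ∀ p ∈ z, ∀ q ∈ p, ∀ C ∈ q, ZFSet.pair ν C ∈ z → ∃ t ∈ C, t ∈ x

theorem d0_meets : D0 (fun v : Fin 5 → ZFSet.{u} => Meets (v 1) (v 2) (v 4)) := by
  unfold Meets
  repeat' first
    | exact ⟨_, rfl⟩
    | with_reducible refine D0.pairMem ?_ ?_ ?_
    | with_reducible refine D0.mem ?_ ?_
    | with_reducible refine D0.ball ?_ ?_
    | with_reducible refine D0.bex ?_ ?_
    | with_reducible refine D0.imp ?_ ?_

theorem exists_meets : ∃ ψ : Fml 4, ψ.IsSigma 1 ∧ ∀ v : Fin 4 → ZFSet.{u},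
    (ψ.Sat v ↔ Meets (v 0) (v 1) (v 3)) := by
  obtain ⟨χ, h1, h2⟩ := d0_meets.{u}
  refine ⟨.ex (.neg (.neg χ)), ⟨.neg χ, .neg h1, rfl⟩, fun v => ?_⟩
  constructor
  · rintro ⟨w, hw⟩
    exact (h2 (Fin.cons w v)).1 (not_not.1 hw)
  · intro h
    exact ⟨∅, not_not.2 ((h2 (Fin.cons ∅ v)).2 h)⟩

theorem exists_family {lam : Cardinal.{u}} (hs : Sg lam)
    (hF : ∀ ν : Cardinal.{u}, ν.IsRegular → lam.ord.cof ≤ ν → ν < lam → ClubBase lam ν) :
    ∃ z : ZFSet.{u}, InH (Order.succ lam) z ∧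
      ∀ ν : Cardinal.{u}, ν.IsRegular → lam.ord.cof ≤ ν → ν < lam →
        (∀ C : ZFSet.{u}, ZFSet.pair ν.ord.toZFSet C ∈ z → ∃ D : Set ν.ord.ToType,
          IsClub D ∧ C = encS D) ∧
        ∀ D : Set ν.ord.ToType, IsClub D → ∃ D' : Set ν.ord.ToType, D' ⊆ D ∧
          ZFSet.pair ν.ord.toZFSet (encS D') ∈ z := by
  classical
  have hlam : ℵ₀ ≤ lam := hs.sing.aleph0_le
  have hκ : (Order.succ lam).IsRegular := isRegular_succ hlam
  -- enumerations of the bases
  have h1 : ∀ ν : Cardinal.{u}, ∃ d : TT lam → Set ν.ord.ToType,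
      (ν.IsRegular → lam.ord.cof ≤ ν → ν < lam → (∀ s, IsClub (d s)) ∧
        ∀ C : Set ν.ord.ToType, IsClub C → ∃ s, d s ⊆ C) := by
    intro ν
    by_cases h : ν.IsRegular ∧ lam.ord.cof ≤ ν ∧ ν < lam
    · obtain ⟨F, hF1, hF2, hF3⟩ := hF ν h.1 h.2.1 h.2.2
      obtain ⟨D0, hD0, _⟩ := hF3 Set.univ IsClub.univ
      have hneF : Nonempty F := ⟨⟨D0, hD0⟩⟩
      obtain ⟨d, hd⟩ := exists_decoder (A := F) hF1
      refine ⟨fun s => (d s).1, fun _ _ _ => ⟨fun s => hF2 _ (d s).2, fun C hC => ?_⟩⟩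
      obtain ⟨D, hD, hDC⟩ := hF3 C hC
      obtain ⟨s, hs⟩ := hd ⟨D, hD⟩
      refine ⟨s, ?_⟩
      dsimp only
      rw [hs]
      exact hDC
    · exact ⟨fun _ => Set.univ, fun h2 h3 h4 => (h ⟨h2, h3, h4⟩).elim⟩
  choose d hd using h1
  obtain ⟨f, hf⟩ : ∃ f : TT lam × TT lam → ZFSet.{u}, f = fun p =>
      if (p.1.toOrd.1).card.ord = p.1.toOrd.1 ∧ (p.1.toOrd.1).card ≤ lam then
        ZFSet.pair (enc p.1) (encS (d (p.1.toOrd.1).card p.2)) else ∅ := ⟨_, rfl⟩
  refine ⟨ZFSet.range f, ?_, ?_⟩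
  · refine InH.of_elems hκ (card_range_lt ?_ _) ?_
    · rw [Order.lt_succ_iff, mk_prod, Cardinal.lift_id, mk_ord_toType]
      exact (mul_eq_self hlam).le
    · intro y hy
      obtain ⟨p, rfl⟩ := ZFSet.mem_range.1 hy
      rw [hf]
      dsimp only
      split_ifs with h
      · refine InH.pair hκ (InH.enc _) (InH.of_elems hκ (card_range_lt ?_ _) ?_)
        · rw [Order.lt_succ_iff]
          refine (mk_set_le _).trans ?_
          rw [mk_ord_toType]
          exact h.2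
        · intro x hx
          obtain ⟨t, rfl⟩ := ZFSet.mem_range.1 hx
          exact InH.encW h.2 _
      · have h2 := InH.ord (κ := Order.succ lam) (o := 0) (by simp)
        simpa using h2
  · intro ν hν1 hν2 hν3
    obtain ⟨h2, h3⟩ := hd ν hν1 hν2 hν3
    have hcast : ∀ (c : Cardinal.{u}), c = ν → ∀ s, encS (d c s) = encS (d ν s) := by
      rintro c rfl s
      rfl
    constructor
    · intro C hC
      obtain ⟨p, hp⟩ := ZFSet.mem_range.1 hC
      rw [hf] at hp
      dsimp only at hp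
      split_ifs at hp with h
      · obtain ⟨h4, h5⟩ := ZFSet.pair_inj.1 hp
        have h6 : (p.1.toOrd.1) = ν.ord := Ordinal.toZFSet_injective h4
        refine ⟨d ν p.2, h2 p.2, ?_⟩
        rw [← h5]
        exact hcast _ (by rw [h6, card_ord]) _
      · exact (ZFSet.notMem_empty {ν.ord.toZFSet} (by rw [hp, ZFSet.pair]; simp)).elim
    · intro D hD
      obtain ⟨s, hs'⟩ := h3 D hD
      refine ⟨d ν s, hs', ?_⟩
      rw [ZFSet.mem_range]
      refine ⟨(ToType.mk ⟨ν.ord, ord_lt_ord.2 hν3⟩, s), ?_⟩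
      have h7 : (((ToType.mk ⟨ν.ord, ord_lt_ord.2 hν3⟩ : TT lam)).toOrd.1) = ν.ord := by
        simp [ToType.toOrd]
      rw [hf]
      dsimp only
      rw [if_pos ⟨by rw [h7, card_ord], by rw [h7, card_ord]; exact hν3.le⟩]
      have h8 : enc (ToType.mk ⟨ν.ord, ord_lt_ord.2 hν3⟩ : TT lam) = ν.ord.toZFSet := by
        rw [enc, h7]
      rw [h8, hcast _ (by rw [h7, card_ord]) s]

/-- If all nonstationary ideals on regular cardinals in `[cf(lam), lam)` have bases of at most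
`lam` clubs, then `lam⁺` fails the boldface `Σ₁`-colouring property. -/
theorem of_club_bases : ∀ lam : Cardinal.{u}, lam.IsSingular → ℵ₀ < lam.ord.cof →
    (∀ ν : Cardinal.{u}, ν.IsRegular → lam.ord.cof ≤ ν → ν < lam → ClubBase lam ν) →
    ¬ HasBoldfaceColouringProperty 1 (Order.succ lam) := by
  intro lam hsing hcof hF
  have hs : Sg lam := ⟨hsing, hcof⟩
  obtain ⟨z, hz, hz'⟩ := exists_family hs hF
  obtain ⟨ψ, hψ, hψ'⟩ := exists_meets.{u}
  refine result lam hsing hcof ⟨ψ, z, hψ, hz, ?_⟩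
  intro ν hν1 hν2 hν3 x _
  refine (hψ' _).trans ?_
  obtain ⟨h1, h2⟩ := hz' ν hν1 hν2 hν3
  change Meets x ν.ord.toZFSet z ↔ IsStationary (dec ν x)
  constructor
  · intro H D hD
    obtain ⟨D', hD', h3⟩ := h2 D hD
    have h4 : ∃ t ∈ encS D', t ∈ x := by
      refine H _ h3 {ν.ord.toZFSet, encS D'} ?_ _ ?_ h3
      · rw [ZFSet.pair]
        simp
      · simp
    obtain ⟨t, ht, htx⟩ := h4
    obtain ⟨s, rfl⟩ := ZFSet.mem_range.1 ht
    exact ⟨s.1, htx, hD' s.2⟩
  · intro H p _ q _ C _ hC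
    obtain ⟨D, hD, rfl⟩ := h1 C hC
    obtain ⟨t, ht, htD⟩ := H hD
    exact ⟨enc t, mem_encS.2 htD, ht⟩

end Pool.Agent.Results.MP_bf1b61_lc.StationarityDefinable
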